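import Pool.Agent.Helper64.WD.Zw
import Pool.Agent.Helper27.GF.M5

/-!
# Project DV, block D1S: moments in every zero environment

`Mid S`: the midpoint (discrete Prekopa-Leindler) inequality for a finite set of height functions; it holds for `Zs D 0 Z`
(`mid_zs`), so the moments of linear functions are bounded by their second moments in every zero environment (`moments_zs`).
-/

open Finset Real

namespace DV

open RP4 (V Adj bdry mem_bdry bdry_subset BdryPar IsHom Om Zs mem_Om mem_Zs par avg)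
open GF (lin mid_om)

/-- the midpoint inequality for a finite set of functions -/
def Mid (S : Finset (V → ℤ)) : Prop :=
  ∀ F G H K : (V → ℤ) → ℝ, (∀ h, 0 ≤ F h) → (∀ h, 0 ≤ G h) → (∀ h, 0 ≤ H h) → (∀ h, 0 ≤ K h) →
    (∀ h ∈ S, ∀ h' ∈ S, ∀ u ∈ S, ∀ w ∈ S, (∀ v, u v + w v = h v + h' v) →
      (∀ v, |w v - u v| ≤ 2) → F h * G h' ≤ H u * K w) →
    (∑ h ∈ S, F h) * ∑ h ∈ S, G h ≤ (∑ h ∈ S, H h) * ∑ h ∈ S, K h

/-- the zero environment satisfies the midpoint inequality -/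
theorem mid_zs {D Z : Finset V} (hZ : bdry D ⊆ Z) : Mid (Zs D 0 Z) := by
  classical
  intro F G H K hF hG hH hK hyp
  have hsum : ∀ A : (V → ℤ) → ℝ, ∑ h ∈ Zs D 0 Z, A h =
      ∑ h ∈ Om D, (if ∀ v ∈ Z, h v = 0 then A h else 0) := by
    intro A
    rw [← Finset.sum_filter]
    refine Finset.sum_congr ?_ fun _ _ => rfl
    ext g
    rw [Finset.mem_filter, mem_Om, mem_Zs hZ]
    constructor
    · rintro ⟨h1, h2⟩
      exact ⟨⟨h1, fun v hv => h2 v (hZ hv)⟩, h2⟩
    · rintro ⟨⟨h1, -⟩, h2⟩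
      exact ⟨h1, h2⟩
  have hn : ∀ (A : (V → ℤ) → ℝ), (∀ h, 0 ≤ A h) → ∀ h : V → ℤ,
      0 ≤ (if ∀ v ∈ Z, h v = 0 then A h else 0 : ℝ) := by
    intro A hA h
    split_ifs
    · exact hA _
    · exact le_rfl
  rw [hsum F, hsum G, hsum H, hsum K]
  refine mid_om D _ _ _ _ (hn F hF) (hn G hG) (hn H hH) (hn K hK) ?_
  intro h hh h' hh' u hu w hw hs hd
  by_cases h1 : ∀ v ∈ Z, h v = 0
  · by_cases h2 : ∀ v ∈ Z, h' v = 0
    · have h3 : ∀ v ∈ Z, u v = 0 ∧ w v = 0 := by
        intro v hv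
        have e1 := hs v
        rw [h1 v hv, h2 v hv, add_zero] at e1
        have e2 := abs_le.1 (hd v)
        by_cases hvD : v ∈ D
        · have e3 : Even (par v) := even_of_zero (mem_Om.1 hh).1 hvD (h1 v hv)
          have e4 := (mem_Om.1 hu).1.par v hvD
          rw [Int.even_iff] at e3 e4
          constructor <;> omega
        · exact ⟨(mem_Om.1 hu).1.off v hvD, (mem_Om.1 hw).1.off v hvD⟩
      rw [if_pos h1, if_pos h2, if_pos fun v hv => (h3 v hv).1, if_pos fun v hv => (h3 v hv).2]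
      refine hyp h ?_ h' ?_ u ?_ w ?_ hs hd
      · exact (mem_Zs hZ).2 ⟨(mem_Om.1 hh).1, h1⟩
      · exact (mem_Zs hZ).2 ⟨(mem_Om.1 hh').1, h2⟩
      · exact (mem_Zs hZ).2 ⟨(mem_Om.1 hu).1, fun v hv => (h3 v hv).1⟩
      · exact (mem_Zs hZ).2 ⟨(mem_Om.1 hw).1, fun v hv => (h3 v hv).2⟩
    · rw [if_neg h2, mul_zero]
      exact mul_nonneg (hn H hH _) (hn K hK _)
  · rw [if_neg h1, zero_mul]
    exact mul_nonneg (hn H hH _) (hn K hK _)

private theorem mid_gauss_lin_add (s : Finset V) (w : V → ℝ) (h h' u v : V → ℤ) (H : ∀ x, u x + v x = h x + h' x) :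
    lin s w u + lin s w v = lin s w h + lin s w h' := by
  unfold lin
  rw [← Finset.sum_add_distrib, ← Finset.sum_add_distrib]
  refine Finset.sum_congr rfl fun x _ => ?_
  have h1 : ((u x : ℤ) : ℝ) + v x = (h x : ℝ) + h' x := by exact_mod_cast H x
  rw [← mul_add, ← mul_add, h1]

private theorem mid_gauss_lin_sub (s : Finset V) (w : V → ℝ) (u v : V → ℤ) (H : ∀ x, |v x - u x| ≤ 2) :
    |lin s w v - lin s w u| ≤ 2 * ∑ x ∈ s, |w x| := by
  unfold lin
  rw [← Finset.sum_sub_distrib, Finset.mul_sum]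
  refine (Finset.abs_sum_le_sum_abs _ _).trans (Finset.sum_le_sum fun x _ => ?_)
  have h1 : |(v x : ℝ) - u x| ≤ 2 := by exact_mod_cast H x
  rw [← mul_sub, abs_mul, mul_comm]
  exact mul_le_mul_of_nonneg_right h1 (abs_nonneg _)

private theorem mid_gauss_div (S : Finset (V → ℤ)) (A B : (V → ℤ) → ℝ) (R : ℝ)
    (h : (∑ g ∈ S, A g) * ∑ g ∈ S, B g ≤ R) : avg S A * avg S B ≤ R / (S.card : ℝ) ^ 2 := by
  unfold avg
  rw [div_mul_div_comm, ← pow_two]
  exact div_le_div_of_nonneg_right h (by positivity)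

open Classical in
noncomputable def tlS (S : Finset (V → ℤ)) (s : Finset V) (w : V → ℝ) (t : ℝ) : ℝ := avg S (fun h => if t ≤ lin s w h then 1 else 0)

open Classical in
theorem tail_stepS {S : Finset (V → ℤ)} (hS : Mid S) (s : Finset V) (w : V → ℝ) (t r : ℝ) :
    tlS S s w (2 * t + 2 * (∑ x ∈ s, |w x|) + r) * avg S (fun h => if -r ≤ lin s w h then 1 else 0) ≤
      tlS S s w t ^ 2 := by
  have key := hS
    (fun h => if 2 * t + 2 * (∑ x ∈ s, |w x|) + r ≤ lin s w h then 1 else 0)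
    (fun h => if -r ≤ lin s w h then 1 else 0)
    (fun h => if t ≤ lin s w h then 1 else 0)
    (fun h => if t ≤ lin s w h then 1 else 0)
    (fun h => by positivity) (fun h => by positivity) (fun h => by positivity) (fun h => by positivity) ?_
  · refine (mid_gauss_div S _ _ _ key).trans (le_of_eq ?_)
    unfold tlS avg
    rw [div_pow, pow_two (∑ g ∈ S, _)]
  · intro h _ h' _ u _ v _ hs hd
    have e1 := mid_gauss_lin_add s w h h' u v hs
    have e2 := abs_le.1 (mid_gauss_lin_sub s w u v hd)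
    show (if 2 * t + 2 * (∑ x ∈ s, |w x|) + r ≤ lin s w h then (1 : ℝ) else 0) *
      (if -r ≤ lin s w h' then (1 : ℝ) else 0) ≤
      (if t ≤ lin s w u then (1 : ℝ) else 0) * (if t ≤ lin s w v then (1 : ℝ) else 0)
    by_cases h1 : 2 * t + 2 * (∑ x ∈ s, |w x|) + r ≤ lin s w h
    · by_cases h2 : -r ≤ lin s w h'
      · rw [if_pos h1, if_pos h2, if_pos (by linarith [e2.1, e2.2]), if_pos (by linarith [e2.1, e2.2])]
      · rw [if_neg h2, mul_zero]
        positivity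
    · rw [if_neg h1, zero_mul]
      positivity

private theorem tail_pow_mono {S : Finset (V → ℤ)} {F G : (V → ℤ) → ℝ} (h : ∀ g ∈ S, F g ≤ G g) :
    avg S F ≤ avg S G := by
  unfold avg
  exact div_le_div_of_nonneg_right (Finset.sum_le_sum h) (Nat.cast_nonneg _)

private theorem tail_pow_anti (S : Finset (V → ℤ)) (s : Finset V) (w : V → ℝ) {t t' : ℝ} (h : t ≤ t') :
    tlS S s w t' ≤ tlS S s w t := by
  refine tail_pow_mono fun g _ => ?_
  show (if t' ≤ lin s w g then (1 : ℝ) else 0) ≤ if t ≤ lin s w g then 1 else 0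
  by_cases h1 : t' ≤ lin s w g
  · rw [if_pos h1, if_pos (h.trans h1)]
  · rw [if_neg h1]
    positivity

private theorem tail_pow_sq (S : Finset (V → ℤ)) (F : (V → ℤ) → ℝ) (T : ℝ) (hT : 0 < T)
    (h2 : 2 * Real.sqrt (avg S (fun h => F h ^ 2)) ≤ T) : avg S (fun h => F h ^ 2 / T ^ 2) ≤ 1 / 4 := by
  have h0 : 0 ≤ avg S (fun h => F h ^ 2) := by
    unfold avg
    positivity
  have h1 : avg S (fun h => F h ^ 2 / T ^ 2) = avg S (fun h => F h ^ 2) / T ^ 2 := by
    unfold avg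
    rw [← Finset.sum_div]
    ring
  have h3 : (2 * Real.sqrt (avg S (fun h => F h ^ 2))) ^ 2 ≤ T ^ 2 :=
    pow_le_pow_left₀ (by positivity) h2 2
  rw [mul_pow, Real.sq_sqrt h0] at h3
  rw [h1, div_le_iff₀ (by positivity)]
  linarith

theorem tail_powS {S : Finset (V → ℤ)} (hS : Mid S) (s : Finset V) (w : V → ℝ) (e : ℝ) (he : 0 < e) (hD : S.Nonempty) (k : ℕ) :
    tlS S s w (4 * (2 * Real.sqrt (avg S (fun h => lin s w h ^ 2)) + (∑ x ∈ s, |w x|) + e) * 2 ^ k) ≤
      (1 / 3) ^ (2 ^ k) := by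
  classical
  have hsg : 0 ≤ Real.sqrt (avg S (fun h => lin s w h ^ 2)) := Real.sqrt_nonneg _
  have hc : 0 ≤ ∑ x ∈ s, |w x| := Finset.sum_nonneg fun x _ => abs_nonneg _
  obtain ⟨T, hTdef⟩ : ∃ T, T = 2 * Real.sqrt (avg S (fun h => lin s w h ^ 2)) + (∑ x ∈ s, |w x|) + e :=
    ⟨_, rfl⟩
  rw [← hTdef]
  have hT : 0 < T := by rw [hTdef]; positivity
  have h14 := tail_pow_sq S (fun h => lin s w h) T hT (by rw [hTdef]; linarith)
  have hT2 : 0 < T ^ 2 := by positivity
  have hcard : (0 : ℝ) < S.card := by exact_mod_cast hD.card_pos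
  -- the start
  have hstart : tlS S s w T ≤ 1 / 4 := by
    refine le_trans (tail_pow_mono fun g _ => ?_) h14
    show (if T ≤ lin s w g then (1 : ℝ) else 0) ≤ lin s w g ^ 2 / T ^ 2
    by_cases h1 : T ≤ lin s w g
    · rw [if_pos h1, le_div_iff₀ hT2, one_mul]
      exact pow_le_pow_left₀ hT.le h1 2
    · rw [if_neg h1]
      positivity
  -- the other side
  have hside : 3 / 4 ≤ avg S (fun h => if -T ≤ lin s w h then (1 : ℝ) else 0) := by
    have e1 : avg S (fun h => 1 - lin s w h ^ 2 / T ^ 2) =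
        1 - avg S (fun h => lin s w h ^ 2 / T ^ 2) := by
      unfold avg
      rw [Finset.sum_sub_distrib, sub_div, Finset.sum_const, nsmul_eq_mul, mul_one, div_self hcard.ne']
    have e2 : avg S (fun h => 1 - lin s w h ^ 2 / T ^ 2) ≤
        avg S (fun h => if -T ≤ lin s w h then (1 : ℝ) else 0) := by
      refine tail_pow_mono fun g _ => ?_
      show 1 - lin s w g ^ 2 / T ^ 2 ≤ if -T ≤ lin s w g then (1 : ℝ) else 0
      by_cases h1 : -T ≤ lin s w g
      · rw [if_pos h1]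
        have : 0 ≤ lin s w g ^ 2 / T ^ 2 := by positivity
        linarith
      · rw [if_neg h1]
        have h3 : T ^ 2 ≤ lin s w g ^ 2 := by
          have : T ≤ -lin s w g := by linarith
          nlinarith
        have h4 : 1 ≤ lin s w g ^ 2 / T ^ 2 := by
          rw [le_div_iff₀ hT2, one_mul]
          exact h3
        linarith
    linarith
  -- the recursion
  have hrec : ∀ t : ℝ, 4 / 3 * tlS S s w (2 * t + 3 * T) ≤ (4 / 3 * tlS S s w t) ^ 2 := by
    intro t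
    have e1 := tail_stepS hS s w t T
    have e2 : tlS S s w (2 * t + 3 * T) ≤ tlS S s w (2 * t + 2 * (∑ x ∈ s, |w x|) + T) :=
      tail_pow_anti S s w (by rw [hTdef]; linarith)
    have e3 : 0 ≤ tlS S s w (2 * t + 2 * (∑ x ∈ s, |w x|) + T) := by
      unfold tlS avg
      positivity
    have e4 : tlS S s w (2 * t + 2 * (∑ x ∈ s, |w x|) + T) * (3 / 4) ≤ tlS S s w t ^ 2 :=
      (mul_le_mul_of_nonneg_left hside e3).trans e1
    nlinarith
  have hind : ∀ k : ℕ, 4 / 3 * tlS S s w (T * (4 * 2 ^ k - 3)) ≤ (1 / 3) ^ (2 ^ k) := by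
    intro k
    induction k with
    | zero =>
      have e1 : T * (4 * 2 ^ 0 - 3) = T := by ring
      rw [e1]
      norm_num
      linarith
    | succ k ih =>
      have e1 : T * (4 * 2 ^ (k + 1) - 3) = 2 * (T * (4 * 2 ^ k - 3)) + 3 * T := by ring
      have e2 : 0 ≤ 4 / 3 * tlS S s w (T * (4 * 2 ^ k - 3)) := by
        unfold tlS avg
        positivity
      rw [e1]
      refine (hrec _).trans ?_
      calc (4 / 3 * tlS S s w (T * (4 * 2 ^ k - 3))) ^ 2 ≤ ((1 / 3) ^ (2 ^ k)) ^ 2 :=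
            pow_le_pow_left₀ e2 ih 2
        _ = (1 / 3) ^ (2 ^ (k + 1)) := by rw [← pow_mul, pow_succ]
  have e5 : tlS S s w (4 * T * 2 ^ k) ≤ tlS S s w (T * (4 * 2 ^ k - 3)) :=
    tail_pow_anti S s w (by nlinarith)
  have e6 := hind k
  have e7 : 0 ≤ tlS S s w (T * (4 * 2 ^ k - 3)) := by
    unfold tlS avg
    positivity
  linarith

private theorem moments_pt (n : ℕ) {a y : ℝ} (ha : 0 < a) (hy : 0 ≤ y) (N : ℕ) (hN : y < a * 2 ^ N) :
    y ^ n ≤ (2 * a) ^ n + ∑ k ∈ Finset.range N, (2 * a * 2 ^ k) ^ n * (if a * 2 ^ k ≤ y then (1 : ℝ) else 0) := by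
  induction N with
  | zero =>
    rw [Finset.sum_range_zero, add_zero]
    refine pow_le_pow_left₀ hy ?_ n
    rw [pow_zero, mul_one] at hN
    linarith
  | succ N ih =>
    rw [Finset.sum_range_succ]
    by_cases h : y < a * 2 ^ N
    · have h1 := ih h
      have h2 : 0 ≤ (2 * a * 2 ^ N) ^ n * (if a * 2 ^ N ≤ y then (1 : ℝ) else 0) := by positivity
      linarith
    · rw [not_lt] at h
      rw [if_pos h, mul_one]
      have h1 : y ^ n ≤ (2 * a * 2 ^ N) ^ n := by
        refine pow_le_pow_left₀ hy ?_ n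
        rw [pow_succ] at hN
        linarith
      have h2 : 0 ≤ (2 * a) ^ n := by positivity
      have h3 : 0 ≤ ∑ k ∈ Finset.range N, (2 * a * 2 ^ k) ^ n * (if a * 2 ^ k ≤ y then (1 : ℝ) else 0) :=
        Finset.sum_nonneg fun k _ => by positivity
      linarith

private theorem moments_neg (s : Finset V) (w : V → ℝ) (h : V → ℤ) :
    lin s (fun x => -w x) h = -lin s w h := by
  unfold lin
  rw [← Finset.sum_neg_distrib]
  exact Finset.sum_congr rfl fun x _ => by ring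

private theorem moments_two {S : Finset (V → ℤ)} (hS : Mid S) (s : Finset V) (w : V → ℝ) (e : ℝ) (he : 0 < e) (hD : S.Nonempty) (k : ℕ) :
    avg S (fun h => if 4 * (2 * Real.sqrt (avg S (fun h => lin s w h ^ 2)) + (∑ x ∈ s, |w x|) + e) * 2 ^ k
      ≤ |lin s w h| then (1 : ℝ) else 0) ≤ 2 * (1 / 3) ^ (2 ^ k) := by
  classical
  have h1 := tail_powS hS s w e he hD k
  have h2 := tail_powS hS s (fun x => -w x) e he hD k
  have e1 : (fun h => lin s (fun x => -w x) h ^ 2) = fun h => lin s w h ^ 2 := by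
    funext h
    rw [moments_neg, neg_sq]
  have e2 : (∑ x ∈ s, |(fun x => -w x) x|) = ∑ x ∈ s, |w x| :=
    Finset.sum_congr rfl fun x _ => abs_neg _
  rw [e1, e2] at h2
  obtain ⟨b, hb⟩ : ∃ b, b = 4 * (2 * Real.sqrt (avg S (fun h => lin s w h ^ 2)) + (∑ x ∈ s, |w x|) + e) * 2 ^ k :=
    ⟨_, rfl⟩
  rw [← hb] at h1 h2 ⊢
  have h3 : avg S (fun h => if b ≤ |lin s w h| then (1 : ℝ) else 0) ≤
      tlS S s w b + tlS S s (fun x => -w x) b := by
    unfold tlS
    have e3 : ∀ F G : (V → ℤ) → ℝ, avg S F + avg S G = avg S (fun h => F h + G h) := by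
      intro F G
      unfold avg
      rw [Finset.sum_add_distrib, add_div]
    rw [e3]
    refine tail_pow_mono fun g _ => ?_
    show (if b ≤ |lin s w g| then (1 : ℝ) else 0) ≤
      (if b ≤ lin s w g then 1 else 0) + if b ≤ lin s (fun x => -w x) g then 1 else 0
    rw [moments_neg]
    by_cases h4 : b ≤ |lin s w g|
    · rw [if_pos h4]
      rcases le_abs.1 h4 with h5 | h5
      · rw [if_pos h5]
        have : (0 : ℝ) ≤ if b ≤ -lin s w g then 1 else 0 := by positivity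
        linarith
      · rw [if_pos h5]
        have : (0 : ℝ) ≤ if b ≤ lin s w g then 1 else 0 := by positivity
        linarith
    · rw [if_neg h4]
      positivity
  linarith

theorem momentsS (n : ℕ) : ∃ C : ℝ, 0 ≤ C ∧ ∀ (S : Finset (V → ℤ)) (s : Finset V) (w : V → ℝ), Mid S → S.Nonempty →
    avg S (fun h => |lin s w h| ^ n) ≤
      C * (Real.sqrt (avg S (fun h => lin s w h ^ 2)) + ∑ x ∈ s, |w x|) ^ n := by
  classical
  have hsum : Summable fun k : ℕ => (((2 ^ k : ℕ) : ℝ)) ^ n * (1 / 3 : ℝ) ^ (2 ^ k) :=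
    (summable_pow_mul_geometric_of_norm_lt_one n (r := (1 / 3 : ℝ)) (by norm_num)).comp_injective
      (Nat.pow_right_injective le_rfl)
  obtain ⟨A, hA⟩ : ∃ A, A = ∑' k : ℕ, (((2 ^ k : ℕ) : ℝ)) ^ n * (1 / 3 : ℝ) ^ (2 ^ k) := ⟨_, rfl⟩
  have hA0 : 0 ≤ A := by
    rw [hA]
    exact tsum_nonneg fun k => by positivity
  refine ⟨24 ^ n * (1 + 2 * A), by positivity, fun S s w hS hD => ?_⟩
  have hsg : 0 ≤ Real.sqrt (avg S (fun h => lin s w h ^ 2)) := Real.sqrt_nonneg _
  have hc : 0 ≤ ∑ x ∈ s, |w x| := Finset.sum_nonneg fun x _ => abs_nonneg _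
  have hcard : (0 : ℝ) < S.card := by exact_mod_cast hD.card_pos
  obtain ⟨e, he⟩ : ∃ e, e = Real.sqrt (avg S (fun h => lin s w h ^ 2)) + ∑ x ∈ s, |w x| := ⟨_, rfl⟩
  rw [← he]
  rcases (show 0 ≤ e by rw [he]; positivity).eq_or_lt with h0 | hpos
  · -- all the weights vanish
    have hc0 : ∑ x ∈ s, |w x| = 0 := by linarith
    have hw : ∀ x ∈ s, w x = 0 := fun x hx =>
      abs_eq_zero.1 ((Finset.sum_eq_zero_iff_of_nonneg fun x _ => abs_nonneg _).1 hc0 x hx)
    have hlin : ∀ h, lin s w h = 0 := fun h => by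
      unfold lin
      exact Finset.sum_eq_zero fun x hx => by rw [hw x hx, zero_mul]
    have e1 : avg S (fun h => |lin s w h| ^ n) = 0 ^ n := by
      have e0 : (fun h => |lin s w h| ^ n) = fun _ : V → ℤ => (0 : ℝ) ^ n := by
        funext h
        rw [hlin h, abs_zero]
      rw [e0]
      unfold avg
      rw [Finset.sum_const, nsmul_eq_mul, mul_div_cancel_left₀ _ hcard.ne']
    rw [e1, ← h0]
    have e2 : (1 : ℝ) ≤ 24 ^ n * (1 + 2 * A) := by
      have : (1 : ℝ) ≤ 24 ^ n := one_le_pow₀ (by norm_num)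
      nlinarith
    have e3 : (0 : ℝ) ≤ 0 ^ n := by positivity
    nlinarith
  · obtain ⟨a, ha⟩ : ∃ a, a = 4 * (2 * Real.sqrt (avg S (fun h => lin s w h ^ 2)) + (∑ x ∈ s, |w x|) + e) :=
      ⟨_, rfl⟩
    have ha0 : 0 < a := by rw [ha]; positivity
    have ha1 : 2 * a ≤ 24 * e := by rw [ha]; linarith
    obtain ⟨N, hN⟩ := pow_unbounded_of_one_lt ((∑ h ∈ S, |lin s w h|) / a) (one_lt_two (α := ℝ))
    rw [div_lt_iff₀ ha0] at hN
    have hpt : ∀ h ∈ S, |lin s w h| ^ n ≤ (2 * a) ^ n +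
        ∑ k ∈ Finset.range N, (2 * a * 2 ^ k) ^ n * (if a * 2 ^ k ≤ |lin s w h| then (1 : ℝ) else 0) := by
      intro h hh
      refine moments_pt n ha0 (abs_nonneg _) N ?_
      rw [mul_comm]
      exact (Finset.single_le_sum (f := fun h => |lin s w h|) (fun _ _ => abs_nonneg _) hh).trans_lt hN
    have e1 : avg S (fun h => (2 * a) ^ n +
        ∑ k ∈ Finset.range N, (2 * a * 2 ^ k) ^ n * (if a * 2 ^ k ≤ |lin s w h| then (1 : ℝ) else 0)) =
        (2 * a) ^ n + ∑ k ∈ Finset.range N, (2 * a * 2 ^ k) ^ n *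
          avg S (fun h => if a * 2 ^ k ≤ |lin s w h| then (1 : ℝ) else 0) := by
      unfold avg
      rw [Finset.sum_add_distrib, Finset.sum_comm, add_div, Finset.sum_const, nsmul_eq_mul,
        mul_div_cancel_left₀ _ hcard.ne', Finset.sum_div]
      congr 1
      refine Finset.sum_congr rfl fun k _ => ?_
      rw [← Finset.mul_sum, mul_div_assoc]
    have e2 : ∑ k ∈ Finset.range N, (2 * a * 2 ^ k) ^ n *
          avg S (fun h => if a * 2 ^ k ≤ |lin s w h| then (1 : ℝ) else 0) ≤ (2 * a) ^ n * (2 * A) := by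
      have e3 : ∀ k ∈ Finset.range N, (2 * a * 2 ^ k) ^ n *
          avg S (fun h => if a * 2 ^ k ≤ |lin s w h| then (1 : ℝ) else 0) ≤
          (2 * a) ^ n * (2 * ((((2 ^ k : ℕ) : ℝ)) ^ n * (1 / 3 : ℝ) ^ (2 ^ k))) := by
        intro k _
        have h1 := moments_two hS s w e hpos hD k
        rw [← ha] at h1
        have h2 : (0 : ℝ) ≤ (2 * a * 2 ^ k) ^ n := by positivity
        refine (mul_le_mul_of_nonneg_left h1 h2).trans (le_of_eq ?_)
        rw [mul_pow (2 * a)]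
        push_cast
        ring
      refine (Finset.sum_le_sum e3).trans ?_
      rw [← Finset.mul_sum, ← Finset.mul_sum]
      have h3 : ∑ k ∈ Finset.range N, (((2 ^ k : ℕ) : ℝ)) ^ n * (1 / 3 : ℝ) ^ (2 ^ k) ≤ A := by
        rw [hA]
        exact hsum.sum_le_tsum _ fun k _ => by positivity
      have h4 : (0 : ℝ) ≤ (2 * a) ^ n := by positivity
      exact mul_le_mul_of_nonneg_left (by linarith) h4
    have e4 : (2 * a) ^ n ≤ 24 ^ n * e ^ n := by
      rw [← mul_pow]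
      exact pow_le_pow_left₀ (by positivity) ha1 n
    calc avg S (fun h => |lin s w h| ^ n) ≤ (2 * a) ^ n + (2 * a) ^ n * (2 * A) := by
          refine (tail_pow_mono hpt).trans ?_
          rw [e1]
          linarith
      _ = (2 * a) ^ n * (1 + 2 * A) := by ring
      _ ≤ 24 ^ n * e ^ n * (1 + 2 * A) := mul_le_mul_of_nonneg_right e4 (by positivity)
      _ = 24 ^ n * (1 + 2 * A) * e ^ n := by ring

/-- **moments in every zero environment** -/
theorem moments_zs (n : ℕ) : ∃ C : ℝ, 0 ≤ C ∧ ∀ (D Z s : Finset V) (w : V → ℝ), bdry D ⊆ Z → (Zs D 0 Z).Nonempty →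
    avg (Zs D 0 Z) (fun h => |lin s w h| ^ n) ≤
      C * (Real.sqrt (avg (Zs D 0 Z) (fun h => lin s w h ^ 2)) + ∑ x ∈ s, |w x|) ^ n := by
  obtain ⟨C, hC, h⟩ := momentsS n
  exact ⟨C, hC, fun D Z s w hZ hne => h _ s w (mid_zs hZ) hne⟩

/-- fourth moments in every zero environment -/
theorem fourth_zs : ∃ C : ℝ, 0 ≤ C ∧ ∀ (D Z s : Finset V) (w : V → ℝ), bdry D ⊆ Z → (Zs D 0 Z).Nonempty →
    avg (Zs D 0 Z) (fun h => lin s w h ^ 4) ≤
      C * (avg (Zs D 0 Z) (fun h => lin s w h ^ 2) + (∑ x ∈ s, |w x|) ^ 2) ^ 2 := by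
  obtain ⟨C, hC, h⟩ := moments_zs 4
  refine ⟨4 * C, by positivity, fun D Z s w hZ hne => ?_⟩
  have h1 := h D Z s w hZ hne
  have e1 : (fun h => |lin s w h| ^ 4) = fun h : V → ℤ => lin s w h ^ 4 := by
    funext h
    rw [← abs_pow, abs_of_nonneg (by positivity)]
  rw [e1] at h1
  refine h1.trans ?_
  have h0 : 0 ≤ avg (Zs D 0 Z) (fun h => lin s w h ^ 2) := by
    unfold avg
    positivity
  have h2 := Real.sq_sqrt h0
  have h3 := Real.sqrt_nonneg (avg (Zs D 0 Z) (fun h => lin s w h ^ 2))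
  have h4 : 0 ≤ ∑ x ∈ s, |w x| := Finset.sum_nonneg fun x _ => abs_nonneg _
  generalize Real.sqrt (avg (Zs D 0 Z) (fun h => lin s w h ^ 2)) = a at *
  generalize avg (Zs D 0 Z) (fun h => lin s w h ^ 2) = A at *
  generalize ∑ x ∈ s, |w x| = b at *
  have h5 : (a + b) ^ 2 ≤ 2 * (A + b ^ 2) := by nlinarith [sq_nonneg (a - b)]
  have h6 : (a + b) ^ 4 ≤ (2 * (A + b ^ 2)) ^ 2 := by
    calc (a + b) ^ 4 = ((a + b) ^ 2) ^ 2 := by ring
      _ ≤ _ := pow_le_pow_left₀ (by positivity) h5 2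
  calc C * (a + b) ^ 4 ≤ C * (2 * (A + b ^ 2)) ^ 2 := mul_le_mul_of_nonneg_left h6 hC
    _ = _ := by ring

end DV
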